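import Pool.Agent.Results.MP_cd906c_nt.MultiquadraticX49
import Pool.Agent.N869.QA.Fin
import Pool.Agent.N869.QA.TRKA

/-!
# The rank conjecture of Birch and Swinnerton-Dyer over all the `(ℤ/2)^n`-extensions of `ℚ(√-7)` unramified
# above 14, ordered by the conductor

Let `K = ℚ(√-7)`, let `E` be the curve `y² + x y = x³ - x² - 2 x - 1` of conductor `49`, and let `n ≥ 2`.
We consider all the tuples `d = (d_1, …, d_n)` of squarefree integers of `K` congruent to `1` modulo
`4` and prime to `√-7`, independent modulo squares: the fields `L = K(√d_1, …, √d_n)` are the extensions of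
`K` with group `(ℤ/2)^n` that are unramified above `14`. The tuples are ordered by the norm of the
conductor `𝔣`, the product of the prime ideals that divide some `d_i` (the primes that ramify in `L`).

* For every set `𝒯` of nonempty subsets `T` of `{1, …, n}`, the proportion of the tuples for which,
  for all `T` in `𝒯`, the twist of `E` by `∏_{i ∈ T} d_i` has finitely many points over `K` and a
  Tate-Shafarevich group without elements of order two, is exactly `c2 ^ #𝒯`, where
  `c2 = ∏_{i ≥ 1} (1 - 2^(-i)) = 0.288...`.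
* If `𝒯` is the set of all `2 ^ n - 1` nonempty subsets, then for these tuples the group `E(L)` is
  finite, the `L`-series of `E` over `L` has a meromorphic continuation and does not vanish at `s = 1`, and
  the 2-primary part of `Ш(E/L)` is finite and killed by `2 ^ n`. So the rank conjecture holds for
  `E` over a proportion at least `c2 ^ (2 ^ n - 1)` of all these extensions.
* There are at least `c X (log X) ^ (2 ^ n - 2)` tuples of conductor at most `X`.

Most of the conductors `𝔣` that matter in this average have about `(2 ^ n - 1) log log 𝔣` prime factors, they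
are a set of density zero among all ideals.

Proof. `MP_cd906c_nt/MultiquadraticX49` reduces the statement on `L` to the twists over `K`, and
`MP_e996df_nt/TwoPartTwistsX49` reduces these to the kernels of matrices of quadratic symbols. A tuple of
conductor `𝔣` is a colouring of the prime divisors of `𝔣` by the nonempty subsets of `{1, …, n}`. So the
average is over the ideals `𝔣` with the weight `(2 ^ n - 1) ^ ω(𝔣)` and a random colouring; for a
fixed random colouring of all primes of `K` and a fixed number of prime divisors, the joint moments of the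
kernels of the matrices are computed by the large sieve for the quadratic symbols over `K` in boxes of
large primes and an exact count of the labellings (`Pool/Agent/N869/QA`).
-/

set_option autoImplicit false

namespace Pool.Agent.Results.MP_32c55d_nt.AllMultiquadratic

open NumberField IsDedekindDomain
open Pool.Agent.Results.MP_cd906c_nt.MultiquadraticX49 (curve InClass NoSelmer AllNoSelmer
  OverExtensions Independent c2)

/-- The conductors of norm at most `X`: the squarefree ideals of `𝓞 K` prime to `14`. -/
def conductors (K : Type) [Field K] [NumberField K] (X : ℕ) : Set (Ideal (𝓞 K)) :=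
  {𝔣 | Squarefree 𝔣 ∧ IsCoprime 𝔣 (Ideal.span {14}) ∧ Ideal.absNorm 𝔣 ≤ X}

/-- The tuples of conductor at most `X`: the `d i` are squarefree, congruent to `1` modulo `4` and
prime to `√-7`, no nonempty product of some of them is a square in `K`, and for an ideal `𝔣` in
`conductors K X` a prime ideal divides `𝔣` if and only if it divides some `d i`. -/
def family {K : Type} [Field K] [NumberField K] (a : 𝓞 K) (n X : ℕ) : Set (Fin n → 𝓞 K) :=
  {d | (∀ i, InClass a (d i)) ∧ Independent d ∧
    ∃ 𝔣 ∈ conductors K X, ∀ v : HeightOneSpectrum (𝓞 K), 𝔣 ≤ v.asIdeal ↔ ∃ i, d i ∈ v.asIdeal}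

/-- `NoSelmer` (that is, `E_N(K)` is finite and `Ш(E_N/K)` has no element of order two) for the twists by
the products over the sets `T` in `𝒯` of the `d i`. -/
def Good {K : Type} [Field K] [NumberField K] (a : 𝓞 K) {n : ℕ} (𝒯 : Finset (Finset (Fin n)))
    (d : Fin n → 𝓞 K) : Prop :=
  ∀ T ∈ 𝒯, ∀ N c : 𝓞 K, InClass a N → c ≠ 0 → ∏ i ∈ T, d i = N * c ^ 2 →
    NoSelmer (curve (N : K))

section proof

open Filter
open Pool.Agent.N869
open Pool.Agent.Results.MP_e996df_nt

variable {K : Type} [Field K] [NumberField K]

lemma good_iff {a : 𝓞 K} (ha : a ^ 2 = a - 2) (hK : Module.finrank ℚ K = 2) {n : ℕ}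
    (𝒯 : Finset (Finset (Fin n))) (d : Fin n → 𝓞 K) : Good a 𝒯 d ↔ QT.TRK.goK a 𝒯 d :=
  forall_congr' fun _ => forall_congr' fun _ => forall_congr' fun _ => forall_congr' fun _ =>
    forall_congr' fun hN => forall_congr' fun _ => forall_congr' fun _ =>
      (MP_cd906c_nt.MultiquadraticX49.twoPart_iff ha hK hN).symm

lemma family_eq (a : 𝓞 K) (n X : ℕ) : family a n X = QA.TRKA.famK a n X := by
  ext d
  constructor
  · rintro ⟨h1, h2, 𝔣, h3, h4⟩
    exact ⟨𝔣, h3, h1, h2, h4⟩
  · rintro ⟨𝔣, h3, h1, h2, h4⟩
    exact ⟨h1, h2, 𝔣, h3, h4⟩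

open scoped Classical in
/-- the twist by `1` -/
lemma good_one {a : 𝓞 K} (ha : a ^ 2 = a - 2) (hK : Module.finrank ℚ K = 2) {N c : 𝓞 K}
    (hN : InClass a N) (hc : c ≠ 0) (h : 1 = N * c ^ 2) : NoSelmer (curve (N : K)) := by
  obtain ⟨e, hea, hef⟩ := TwoPartTwistsX49.exists_e ha hK
  rw [← MP_cd906c_nt.MultiquadraticX49.twoPart_iff ha hK hN]
  have h1 : e.symm N = 1 := by
    refine Pool.Agent.R426.QM.Cls.uniq (c := e.symm c) (c' := 1)
      ((TwoPartTwistsX49.cls_e e hef _).1 (by rw [e.apply_symm_apply]; exact hN))
      Pool.Agent.R426.QM.Cls.cls_one ((map_ne_zero_iff _ e.symm.injective).2 hc) one_ne_zero ?_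
    have h2 := congrArg e.symm h
    rw [map_one, map_mul, map_pow] at h2
    rw [← h2]
    ring
  have h2 := (TwoPartTwistsX49.good_e e ha hK hea hef (e.symm N)).2 ⟨(TwoPartTwistsX49.cls_e e hef
    _).1 (by rw [e.apply_symm_apply]; exact hN), by
      have h3 := (Pool.Agent.R426.QK.PS_prod (S := ∅) (fun _ h => absurd h (Finset.notMem_empty _))).2
      rw [Finset.prod_empty] at h3
      rw [h1, h3]
      intro v _ π hπ
      exact absurd hπ (Finset.notMem_empty π)⟩
  rw [e.apply_symm_apply] at h2
  exact h2.2

/-- the extensions -/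
theorem ext_good {a : 𝓞 K} (ha : a ^ 2 = a - 2) (hK : Module.finrank ℚ K = 2) {n : ℕ}
    {d : Fin n → 𝓞 K} (h1 : ∀ i, InClass a (d i)) (h2 : Independent d)
    (hg : Good a (Finset.univ.filter fun T => T.Nonempty) d) : OverExtensions d 1 := by
  classical
  have hone : InClass a 1 := by
    obtain ⟨e, hea, hef⟩ := TwoPartTwistsX49.exists_e ha hK
    have := (TwoPartTwistsX49.cls_e e hef 1).2 Pool.Agent.R426.QM.Cls.cls_one
    rw [map_one] at this
    exact this
  refine MP_cd906c_nt.MultiquadraticX49.extension ha hK d h1 h2 hone (fun i => isCoprime_one_left) ?_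
  intro T N c hN hc hT
  rw [one_mul] at hT
  rcases T.eq_empty_or_nonempty with rfl | hT'
  · rw [Finset.prod_empty] at hT
    exact good_one ha hK hN hc hT
  · exact hg T (Finset.mem_filter.2 ⟨Finset.mem_univ _, hT'⟩) N c hN hc hT

end proof

/-- **Main theorem.** Let `K = ℚ(√-7)`, that is, a number field of degree two with an integer `a` such
that `a² = a - 2`, and let `n ≥ 2`. There are finitely many tuples of conductor at most `X`, and at least
`c X (log X) ^ (2 ^ n - 2)` for large `X`.
(1) For every tuple that is good for all the `2 ^ n - 1` nonempty subsets of `{1, …, n}` (a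
condition on the side of algebra only, on the twists of `E` over `K`), and for
`L = K(√d_1, …, √d_n)`, of degree `2 ^ n` over `K`: the group `E(L)` is finite, the rank
conjecture holds for `E` over `L`, a product of `L(E/L, s)` and finitely many Euler polynomials is entire and
not zero at `1`, and the 2-primary part of `Ш(E/L)` is finite and killed by `2 ^ n`.
(2) For every set `𝒯` of nonempty subsets of `{1, …, n}`, the proportion of the tuples of conductor at
most `X` that are good for `𝒯` tends to `c2 ^ #𝒯`, where `0.288 < c2 < 0.289`. In particular this holds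
with the exponent `2 ^ n - 1` for the condition in (1). -/
theorem result (K : Type) [Field K] [NumberField K] (a : 𝓞 K) (ha : a ^ 2 = a - 2)
    (hK : Module.finrank ℚ K = 2) (n : ℕ) (hn : 2 ≤ n) :
    (∀ X : ℕ, (family a n X).Finite ∧ ∀ d ∈ family a n X,
      Good a (Finset.univ.filter fun T => T.Nonempty) d → OverExtensions d 1) ∧
    (∃ c : ℝ, 0 < c ∧ ∀ᶠ X : ℕ in Filter.atTop,
      c * (X * (Real.log X) ^ (2 ^ n - 2)) ≤ ((family a n X).ncard : ℝ)) ∧
    (∀ 𝒯 : Finset (Finset (Fin n)), (∀ T ∈ 𝒯, T.Nonempty) →
      Filter.Tendsto (fun X : ℕ => ({d ∈ family a n X | Good a 𝒯 d}.ncard : ℝ) /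
        ((family a n X).ncard : ℝ)) Filter.atTop (nhds (c2 ^ 𝒯.card))) ∧
    (Finset.univ.filter fun T : Finset (Fin n) => T.Nonempty).card = 2 ^ n - 1 ∧
    0.288 < c2 ∧ c2 < 0.289 := by
  obtain ⟨-, -, -, h3, h4⟩ := Pool.Agent.R426.QK.MOM.t_C2
  have h0 := Pool.Agent.N869.QA.TRKA.main Pool.Agent.N869.QA.t_FINA ha hK hn ∅ (by simp)
  refine ⟨fun X => ⟨?_, fun d hd hg => ext_good ha hK hd.1 hd.2.1 hg⟩, ?_, fun 𝒯 h𝒯 => ?_, ?_,
    h3, h4⟩
  · rw [family_eq]
    exact h0.1 X
  · simp only [family_eq]
    exact h0.2.1
  · simp only [family_eq, good_iff ha hK]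
    exact (Pool.Agent.N869.QA.TRKA.main Pool.Agent.N869.QA.t_FINA ha hK hn 𝒯 h𝒯).2.2
  · have h1 : (Finset.univ.filter fun T : Finset (Fin n) => T.Nonempty) = Finset.univ.erase ∅ := by
      ext T
      simp [Finset.nonempty_iff_ne_empty]
    rw [h1, Finset.card_erase_of_mem (Finset.mem_univ _), Finset.card_univ, Fintype.card_finset,
      Fintype.card_fin]

end Pool.Agent.Results.MP_32c55d_nt.AllMultiquadratic
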