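import Pool.Agent.N974.FK.Main
import Pool.Agent.N974.FK.Ev
import Pool.Agent.N974.FK.Ev3
import Pool.Agent.N809.JT.Dnf
import Pool.Agent.N809.JT.Inpf

/-!
# The rank conjecture of Birch and Swinnerton-Dyer for all quadratic twists of three curves without complex
multiplication over all multiquadratic fields

`E_{c,m}` is the quadratic twist by `m` of the curve `E_c`, where

* `E_0 = X_0(15) : y² = x (x + 9) (x - 16)`,
* `E_1 : y² = x (x + 1) (x - 16)` has conductor `17`,
* `E_2 = X_0(21) : y² = x (x - 9) (x + 7)`;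

none of them has complex multiplication. We consider all multiquadratic fields
`K = ℚ(√d_1, …, √d_r)` of any degree `2 ^ r`, with any signs and any ramification, and all twists
`E_{c,m}`, `m ≠ 0`. Call `E_{c,m}` good over `K` if the `2 ^ r` curves `E_{c, m d_T}` over `ℚ`, `d_T` the
products of the `d_i`, have finitely many rational points and no element of order two in the
Tate-Shafarevich group.

(1) If `E_{c,m}` is good over `K`, then the conclusion of the frozen statement `S16511` holds for `E_{c,m}`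
over `K`: the `L`-series of Mathlib, with the Euler factors of all finite places (computed from a minimal
equation at each place), continues analytically from `Re s > 3/2` to a connected open set that contains
`1`, where its order of vanishing is the rank of `E_{c,m}(K)`; both are `0`. The continuation is
meromorphic on `ℂ`, the group `E_{c,m}(K)` is finite, and `Ш(E_{c,m}/K)[2^∞]` is finite and killed by `2 ^ r`.

(2) `E_c` is good over `ℚ(√D)` if and only if `E_{c,D}` is good over `ℚ`. The exact natural density of the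
`D` such that this holds for all `c` in a given set of curves, among all quadratic fields by the absolute
value of the discriminant and among all squarefree integers, is given for all seven nonempty sets of
curves; at least one of the three curves is good for a proportion of `0.4131…` of all quadratic fields.

(3) Over every quadratic field `K`, except for the imaginary ones in which `17` splits, and over every
multiquadratic field `K`, of any degree, with odd discriminant which is real and unramified at `17` or whose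
Frobenius at `17` is the complex conjugation, infinitely many twists `E_{1,m}` are good; so (1) holds for
infinitely many elliptic curves over `K`. Over the other multiquadratic fields unramified at `17`, and so over
the imaginary quadratic fields in which `17` splits, none of the twists `E_{1,m}` is good: if `17` divides none
of the `d_i` and some `E_{1,m}` is good over `K`, then all `d_i` are positive or `(d_i/17)` is the sign of `d_i`
for all `i`.

(4) Let `K` be an imaginary quadratic field in which `3` is not inert and `5` is not split (for `X_0(15)`),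
or `3` is not split and `7` is not inert (for `X_0(21)`). Then the curve is good over `K` if and only if the
ideal class group of `K` has no element of order four. These are a proportion of exactly
`η = ∏ (1 - 2^{-i}) = 0.2887…` of the fields of the family.

(5) Let `F = ℚ(√d_1, …, √d_r)`, of degree `2 ^ r`, with squarefree `d_t ≡ 1, 49 mod 60`, and let `e` be up to
squares squarefree and `≡ 23, 47 mod 60`. For the squarefree `D ≡ 1, 49 mod 60` of natural density exactly
`η ^ (2 ^ r)` the curve `E_{0, - e D}` is good over `F`. If `E_{0, -e}` is good over `F`, then it is good over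
`F(√D)` for `D` of the same density, and there is an infinite tower of such fields over `F`.

The theorems over `ℚ` are joint work of helpers 969, 970, 971, 972, 973, 974, 975, 99, 218, 402, 575, 637,
809, 816, 844, 855, 871, 875, 877, 878, 886, 890, 916, 919, 958, 963 and others
(`Results/MP_696deb_nt/Conductor15.lean`, `Conductor17.lean`, `Conductor21.lean` and the project on the
joint law, helpers 809, 877, 963, 972, 975); the passage to the fields follows helpers 856, 970 and 975,
the factorization of the `L`-function and the 2-primary part of `Ш` over multiquadratic fields helpers 687,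
723, 494, 413, 841; (3) is due to helper809; (5) to helper856 (joint law of helpers 588, 763, 789, 814,
856).
-/

set_option autoImplicit false

open NumberField Filter Topology

namespace Pool.Agent.Results.MP_32c55d_nt.AllTwistsThreeCurves

open Pool.Agent.TH841.NF.D (Sha)

/-- the coefficients `a` of the equations `y² = x³ + a x + b` of the three curves -/
def α : Fin 3 → ℤ := ![-12987, -91, -5211]

/-- the coefficients `b` of the equations `y² = x³ + a x + b` of the three curves -/
def β : Fin 3 → ℤ := ![-263466, -330, -31050]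

/-- the twist `E_{c,m} : y² = x³ + α_c m² x + β_c m³` over the field `K` -/
def E (K : Type) [Field K] (c : Fin 3) (m : ℤ) : WeierstrassCurve K :=
  { a₁ := 0, a₂ := 0, a₃ := 0, a₄ := ((α c * m ^ 2 : ℤ) : K), a₆ := ((β c * m ^ 3 : ℤ) : K) }

/-- `E_{c,m}(ℚ)` is finite and `Ш(E_{c,m}/ℚ)` has no element of order two -/
def RankZeroShaTwo (c : Fin 3) (m : ℤ) : Prop :=
  Finite (E ℚ c m).toAffine.Point ∧ ∀ x : Sha (E ℚ c m), 2 • x = 0 → x = 0

/-- `ℚ(√d_1, …, √d_r)` has degree `2 ^ r` -/
def Independent {r : ℕ} (d : Fin r → ℤ) : Prop :=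
  ∀ T : Finset (Fin r), T.Nonempty → ¬ IsSquare (∏ t ∈ T, d t)

/-- `K = ℚ(√d_1, …, √d_r)` -/
def IsMultiquadratic {r : ℕ} (d : Fin r → ℤ) (K : Type) [Field K] [NumberField K] : Prop :=
  ∃ x : Fin r → K, (∀ t, x t ^ 2 = (d t : K)) ∧ IntermediateField.adjoin ℚ (Set.range x) = ⊤

/-- `E_{c,m}` is good over `K = ℚ(√d_1, …, √d_r)` -/
def Good {r : ℕ} (d : Fin r → ℤ) (c : Fin 3) (m : ℤ) : Prop :=
  ∀ T : Finset (Fin r), RankZeroShaTwo c (m * ∏ t ∈ T, d t)

open Classical in
/-- The conclusion of `S16511` for `W` over `K`, with rank `0`: `W` is an elliptic curve, `W(K)` is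
finite, and the `L`-series of `W` continues analytically from `Re s > 3 / 2` to a connected open set
that contains `1`, where its order of vanishing is equal to the rank of `W(K)`; moreover the
continuation is meromorphic on `ℂ`. -/
def RankConjectureZero {K : Type} [Field K] [NumberField K] (W : WeierstrassCurve K) : Prop :=
  W.IsElliptic ∧ Finite W.toAffine.Point ∧
  ∃ (U : Set ℂ) (F : ℂ → ℂ),
    IsOpen U ∧ IsConnected U ∧ {s : ℂ | (3 / 2 : ℝ) < s.re} ⊆ U ∧ (1 : ℂ) ∈ U ∧
    AnalyticOnNhd ℂ F U ∧ (∀ s : ℂ, (3 / 2 : ℝ) < s.re → F s = W.LSeries s) ∧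
    (∀ s : ℂ, MeromorphicAt F s) ∧
    (∀ r : ℕ, r < Module.finrank ℤ W.toAffine.Point → iteratedDeriv r F 1 = 0) ∧
    iteratedDeriv (Module.finrank ℤ W.toAffine.Point) F 1 ≠ 0

/-- `Ш(W/K)[2^∞]` is finite and killed by `2 ^ r` -/
def ShaBound {K : Type} [Field K] [NumberField K] (W : WeierstrassCurve K) (r : ℕ) : Prop :=
  {y : Sha W | ∃ k : ℕ, (2 ^ k : ℕ) • y = 0}.Finite ∧
    ∀ (k : ℕ) (y : Sha W), (2 ^ k : ℕ) • y = 0 → (2 ^ r : ℕ) • y = 0

/-- the curve `E_c` is good over `ℚ(√D)` -/
def GoodOver (c : Fin 3) (D : ℤ) : Prop := Good (fun _ : Fin 1 => D) c 1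

/-- `D` is a fundamental discriminant (`1` included) -/
def Fund (D : ℤ) : Prop := (Squarefree D ∧ D % 4 = 1) ∨
  ∃ m : ℤ, D = 4 * m ∧ Squarefree m ∧ (m % 4 = 2 ∨ m % 4 = 3)

open Classical in
/-- the number of the squarefree integers `D`, `|D| ≤ X`, with the property `P` -/
noncomputable def count (P : ℤ → Prop) (X : ℕ) : ℕ :=
  ((Finset.Icc (-(X : ℤ)) X).filter fun D => Squarefree D ∧ P D).card

open Classical in
/-- the number of the fundamental discriminants `D`, `|D| ≤ X`, with the property `P` -/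
noncomputable def countDisc (P : ℤ → Prop) (X : ℕ) : ℕ :=
  ((Finset.Icc (-(X : ℤ)) X).filter fun D => Fund D ∧ P D).card

/-- the set of all quadratic fields `ℚ(√D)` with the property `P` has the natural density `ρ`, in the
ordering by the absolute value of the discriminant and in the ordering by `|D|`, `D` squarefree -/
def HasDensity (P : ℤ → Prop) (ρ : ℝ) : Prop :=
  Tendsto (fun X : ℕ => (countDisc P X : ℝ) / (countDisc (fun _ => True) X : ℝ)) atTop (𝓝 ρ) ∧
  Tendsto (fun X : ℕ => (count P X : ℝ) / (count (fun _ => True) X : ℝ)) atTop (𝓝 ρ)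

/-- the local conditions on the quadratic field of discriminant `D` for the curve `E_c`: `3` is not
inert and `5` is not split for `X_0(15)`, `3` is not split and `7` is not inert for `X_0(21)`; the curve
of conductor `17` is not allowed -/
def Allowed : Fin 3 → ℤ → Prop :=
  ![fun D => D % 3 ≠ 2 ∧ ¬ (D % 5 = 1 ∨ D % 5 = 4), fun _ => False,
    fun D => D % 3 ≠ 1 ∧ ¬ (D % 7 = 3 ∨ D % 7 = 5 ∨ D % 7 = 6)]

/-- the ideal class group of `ℚ(√D)` has no element of order four -/
def NoOrderFour (D : ℤ) : Prop :=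
  ∀ (K : Type) [Field K] [NumberField K], Module.finrank ℚ K = 2 →
    (∃ s : K, s ^ 2 = (D : K)) →
    ∀ x : ClassGroup (NumberField.RingOfIntegers K), x ^ 4 = 1 → x ^ 2 = 1

/-- the class of the squarefree `n` with `n ≡ 23, 47 mod 60` -/
def Twist (n : ℕ) : Prop := Squarefree n ∧ (n % 60 = 23 ∨ n % 60 = 47)

/-- the class of the squarefree `d` with `d ≡ 1, 49 mod 60` -/
def Disc (d : ℕ) : Prop := Squarefree d ∧ (d % 60 = 1 ∨ d % 60 = 49)

/-- up to a square `z` has the property `C` -/
def UpToSq (C : ℕ → Prop) (z : ℕ) : Prop := ∃ n k : ℕ, C n ∧ k ≠ 0 ∧ z = n * k ^ 2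

/-- `ℚ(√d_1, …, √d_r)` has degree `2 ^ r` -/
def IndependentN {r : ℕ} (d : Fin r → ℕ) : Prop := Independent fun t => (d t : ℤ)

/-- the curve `E_{0, - e}` is good over `ℚ(√d_1, …, √d_r)` -/
def GoodN {r : ℕ} (d : Fin r → ℕ) (e : ℕ) : Prop := Good (fun t => (d t : ℤ)) 0 (-(e : ℤ))

open Classical in
/-- the number of the `n ≤ X` with the property `P` -/
noncomputable def countN (P : ℕ → Prop) (X : ℕ) : ℕ := ((Finset.Icc 1 X).filter fun n => P n).card

/-- among the squarefree `D ≡ 1, 49 mod 60`, those with the property `P` have natural density `ρ` -/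
def DiscDensity (P : ℕ → Prop) (ρ : ℝ) : Prop :=
  Tendsto (fun X : ℕ => (countN (fun n => Disc n ∧ P n) X : ℝ) / (countN Disc X : ℝ)) atTop (𝓝 ρ)

section proof

open Pool.Agent.N916.GB (eta)
open Pool.Agent.Y703.CQ (c2)
open Pool.Agent.N919.BS (NS NF core)
open Pool.Agent.N963.JT (R15 R17)
open Pool.Agent.N809.JT (R21 Tot)

theorem good_iff {r : ℕ} (d : Fin r → ℤ) (c : Fin 3) (m : ℤ) :
    Good d c m ↔ Pool.Agent.N974.FK.Good d c m := Iff.rfl

theorem bsd (c : Fin 3) {r : ℕ} {d : Fin r → ℤ} {m : ℤ} (hm : m ≠ 0) (hi : Independent d)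
    (hg : Good d c m) (K : Type) [Field K] [NumberField K] (hK : IsMultiquadratic d K) :
    Module.finrank ℚ K = 2 ^ r ∧ RankConjectureZero (E K c m) ∧ ShaBound (E K c m) r := by
  obtain ⟨h1, h2, h3, h4⟩ := Pool.Agent.N974.FK.field (K := K) (r := r) (d := d) hi c hm hg hK
  exact ⟨h1, h2, h3, h4⟩

/-- the curves themselves -/
theorem one_good (c : Fin 3) : RankZeroShaTwo c 1 := Pool.Agent.N970.AVP.rz_one c

theorem good_one (c : Fin 3) (D : ℤ) : GoodOver c D ↔ RankZeroShaTwo c D := by
  unfold GoodOver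
  constructor
  · intro h
    have := h Finset.univ
    simpa using this
  · intro h T
    rcases T.eq_empty_or_nonempty with rfl | hT
    · rw [Finset.prod_empty, mul_one]
      exact one_good c
    · have : T = {0} := by
        obtain ⟨i, hi⟩ := hT
        ext j
        rw [Finset.mem_singleton]
        have hj : j = 0 := Subsingleton.elim j 0
        have hi0 : i = 0 := Subsingleton.elim i 0
        subst hi0
        exact ⟨fun _ => hj, fun _ => hj ▸ hi⟩
      rw [this, Finset.prod_singleton, one_mul]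
      exact h

theorem good_pair {c : Fin 3} {m D : ℤ} (h1 : RankZeroShaTwo c m) (h2 : RankZeroShaTwo c (m * D)) :
    Good (fun _ : Fin 1 => D) c m := by
  intro T
  rcases T.eq_empty_or_nonempty with rfl | hT
  · rw [Finset.prod_empty, mul_one]
    exact h1
  · have : T = {0} := by
      obtain ⟨i, hi⟩ := hT
      ext j
      rw [Finset.mem_singleton]
      have hj : j = 0 := Subsingleton.elim j 0
      have hi0 : i = 0 := Subsingleton.elim i 0
      subst hi0
      exact ⟨fun _ => hj, fun _ => hj ▸ hi⟩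
    rw [this, Finset.prod_singleton]
    exact h2

/-- infinitely many twists over a quadratic field -/
theorem every {d : ℤ} (hs : Squarefree d) (hd : ¬ (d < 0 ∧ jacobiSym d 17 = 1)) (B : ℕ) :
    ∃ m : ℤ, Squarefree m ∧ (B : ℤ) < |m| ∧ Good (fun _ : Fin 1 => d) 1 m := by
  obtain ⟨m, h1, h2, h3, h4⟩ := Pool.Agent.N974.FK.every hs hd B
  exact ⟨m, h1, h2, good_pair h3 h4⟩

/-- infinitely many twists over a multiquadratic field -/
theorem multi {r : ℕ} (d : Fin r → ℤ) (hd : ∀ i, d i % 4 = 1)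
    (h : (∀ i, 0 < d i ∧ ¬ (17 : ℤ) ∣ d i) ∨ ∀ i, jacobiSym (d i) 17 = (d i).sign) (B : ℕ) :
    ∃ m : ℤ, Squarefree m ∧ (B : ℤ) < |m| ∧ Good d 1 m :=
  Pool.Agent.N974.FK.multi3 d hd h B

/-- no twist over the other multiquadratic fields which are unramified at `17` -/
theorem none {r : ℕ} (d : Fin r → ℤ) (h17 : ∀ i, ¬ (17 : ℤ) ∣ d i) {m : ℤ} (hm : m ≠ 0)
    (hg : Good d 1 m) : (∀ i, 0 < d i) ∨ ∀ i, jacobiSym (d i) 17 = (d i).sign :=
  Pool.Agent.N974.FK.none3 d h17 hm hg

theorem rz_iff (c : Fin 3) (m : ℤ) :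
    RankZeroShaTwo c m ↔ Pool.Agent.N970.AVP.RankZeroShaTwo c m := Iff.rfl

theorem r0 (d : ℤ) : GoodOver 0 d ↔ R15 d := (good_one 0 d).trans (Pool.Agent.N970.AVP.rz_iff 0 d)

theorem r1 (d : ℤ) : GoodOver 1 d ↔ R17 d := (good_one 1 d).trans (Pool.Agent.N970.AVP.rz_iff 1 d)

theorem r2 (d : ℤ) : GoodOver 2 d ↔ R21 d := (good_one 2 d).trans (Pool.Agent.N970.AVP.rz_iff 2 d)

theorem go_core (c : Fin 3) {D : ℤ} (h : Fund D) : GoodOver c D ↔ GoodOver c (core D) := by
  rw [good_one, good_one]
  exact Pool.Agent.N970.AVP.rz_core c h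

/-- from the densities of the criteria -/
theorem dens_of {P Q : ℤ → Prop} {ρ : ℝ} (hP : ∀ D, Fund D → (P D ↔ P (core D)))
    (hPQ : ∀ d, P d ↔ Q d)
    (h1 : Tendsto (fun X : ℕ => (NF Q X : ℝ) / (NF (fun _ => True) X : ℝ)) atTop (𝓝 ρ))
    (h2 : Tendsto (fun X : ℕ => (NS Q X : ℝ) / (NS (fun _ => True) X : ℝ)) atTop (𝓝 ρ)) :
    HasDensity P ρ := by
  classical
  have a1 : ∀ (P Q : ℤ → Prop), (∀ D, Fund D → (P D ↔ Q (core D))) → ∀ X,
      countDisc P X = NF Q X := by
    intro P Q h X
    unfold countDisc NF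
    refine congrArg Finset.card (Finset.ext fun n => ?_)
    refine (Finset.mem_filter).trans (Iff.trans ?_ (Finset.mem_filter).symm)
    exact and_congr_right fun _ => and_congr_right fun hs => h n hs
  have a2 : ∀ (P Q : ℤ → Prop), (∀ D, P D ↔ Q D) → ∀ X, count P X = NS Q X := by
    intro P Q h X
    unfold count NS
    refine congrArg Finset.card (Finset.ext fun n => ?_)
    refine (Finset.mem_filter).trans (Iff.trans ?_ (Finset.mem_filter).symm)
    exact and_congr_right fun _ => and_congr_right fun hs => h n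
  constructor
  · refine h1.congr fun X => ?_
    rw [a1 P Q fun D hD => (hP D hD).trans (hPQ _),
      a1 (fun _ => True) (fun _ => True) fun _ _ => Iff.rfl]
  · refine h2.congr fun X => ?_
    rw [a2 P Q hPQ, a2 (fun _ => True) (fun _ => True) fun _ => Iff.rfl]

theorem dens (hF : Tot NF) (hS : Tot NS) :
    HasDensity (GoodOver 0) (eta / 2) ∧
    HasDensity (GoodOver 1) (c2 / 2) ∧
    HasDensity (GoodOver 2) (137 / 256 * eta) ∧
    HasDensity (fun D => GoodOver 0 D ∧ GoodOver 1 D) (433 / 1728 * (eta * c2)) ∧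
    HasDensity (fun D => GoodOver 0 D ∧ GoodOver 2 D) (443 / 3072 * eta) ∧
    HasDensity (fun D => GoodOver 1 D ∧ GoodOver 2 D) (2461 / 9216 * (eta * c2)) ∧
    HasDensity (fun D => GoodOver 0 D ∧ GoodOver 1 D ∧ GoodOver 2 D)
      (8065 / 110592 * (eta * c2)) ∧
    HasDensity (fun D => GoodOver 0 D ∨ GoodOver 1 D ∨ GoodOver 2 D)
      (2737 / 3072 * eta + c2 / 2 - 16393 / 36864 * (eta * c2)) :=
  ⟨dens_of (fun _ h => go_core 0 h) r0 hF.t15 hS.t15,
   dens_of (fun _ h => go_core 1 h) r1 hF.t17 hS.t17,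
   dens_of (fun _ h => go_core 2 h) r2 hF.t21 hS.t21,
   dens_of (fun _ h => and_congr (go_core 0 h) (go_core 1 h))
    (fun d => and_congr (r0 d) (r1 d)) hF.t1517 hS.t1517,
   dens_of (fun _ h => and_congr (go_core 0 h) (go_core 2 h))
    (fun d => and_congr (r0 d) (r2 d)) hF.t1521 hS.t1521,
   dens_of (fun _ h => and_congr (go_core 1 h) (go_core 2 h))
    (fun d => and_congr (r1 d) (r2 d)) hF.t1721 hS.t1721,
   dens_of (fun _ h => and_congr (go_core 0 h) (and_congr (go_core 1 h) (go_core 2 h)))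
    (fun d => and_congr (r0 d) (and_congr (r1 d) (r2 d))) hF.t3 hS.t3,
   dens_of (fun _ h => or_congr (go_core 0 h) (or_congr (go_core 1 h) (go_core 2 h)))
    (fun d => or_congr (r0 d) (or_congr (r1 d) (r2 d))) hF.or hS.or⟩

/-- the class groups -/
theorem cls (c : Fin 3) {D : ℤ} (hD : Fund D) (h0 : D < 0) (ha : Allowed c D) :
    GoodOver c D ↔ NoOrderFour D :=
  (Pool.Agent.N974.FK.good_iff (fun _ : Fin 1 => D) c 1).symm.trans
    (Pool.Agent.N970.AVP.good_class (ι := Unit) (j := fun _ => c) hD h0 fun _ => ha)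

theorem cls_dens {c : Fin 3} (hc : c ≠ 1) :
    Tendsto (fun X : ℕ => (countDisc (fun D => (D < 0 ∧ Allowed c D) ∧ GoodOver c D) X : ℝ) /
      (countDisc (fun D => D < 0 ∧ Allowed c D) X : ℝ)) atTop (𝓝 eta) := by
  classical
  have key : ∀ (P Q : ℤ → Prop), (∀ D, P D → D < 0) → (∀ D, P D ↔ Q D) → ∀ X,
      countDisc P X = Pool.Agent.N970.AVP.countQuad Q X := by
    intro P Q h1 h2 X
    unfold countDisc Pool.Agent.N970.AVP.countQuad
    refine congrArg Finset.card (Finset.ext fun n => ?_)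
    refine (Finset.mem_filter).trans (Iff.trans ?_ (Finset.mem_filter).symm)
    refine and_congr_right fun _ => and_congr_right fun hs => ?_
    constructor
    · intro h
      refine ⟨?_, (h2 n).1 h⟩
      have := h1 n h
      omega
    · exact fun h => (h2 n).2 h.2
  have h := Pool.Agent.N970.AVP.dens_class (ι := Unit) (j := fun _ => c) fun _ => hc
  refine h.congr fun X => ?_
  rw [key (fun D => (D < 0 ∧ Allowed c D) ∧ GoodOver c D)
      (fun D => (D < 0 ∧ ∀ _ : Unit, Pool.Agent.N970.AVP.Allowed c D) ∧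
        Pool.Agent.N970.AVP.Good (fun _ : Fin 1 => D) (fun _ : Unit => c) (fun _ => 1))
      (fun D h => h.1.1) fun D => and_congr (and_congr Iff.rfl ⟨fun h _ => h, fun h => h ()⟩)
        (Pool.Agent.N974.FK.good_iff (fun _ : Fin 1 => D) c 1).symm,
    key (fun D => D < 0 ∧ Allowed c D)
      (fun D => D < 0 ∧ ∀ _ : Unit, Pool.Agent.N970.AVP.Allowed c D)
      (fun D h => h.1) fun D => and_congr Iff.rfl ⟨fun h _ => h, fun h => h ()⟩]

open Pool.Agent.N856.JL.Av in
theorem goodN_iff {r : ℕ} (d : Fin r → ℕ) (e : ℕ) :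
    Pool.Agent.N856.JL.Av.Good d (fun _ : Unit => e) ↔ GoodN d e :=
  ⟨fun h => h (), fun h _ => h⟩

theorem indN_iff {r : ℕ} (d : Fin r → ℕ) :
    Pool.Agent.N856.JL.Av.Independent d ↔ IndependentN d := by
  unfold Pool.Agent.N856.JL.Av.Independent IndependentN Independent
  refine forall_congr' fun T => forall_congr' fun _ => not_congr ?_
  have e : (∏ t ∈ T, (d t : ℤ)) = ((∏ t ∈ T, d t : ℕ) : ℤ) := by push_cast; rfl
  rw [e]
  exact Int.isSquare_natCast_iff.symm

theorem expo {r : ℕ} {d : Fin r → ℕ} (hd : ∀ t, Disc (d t)) (hi : IndependentN d) {e : ℕ}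
    (he : UpToSq Twist e) :
    Pool.Agent.N856.JL.Av.curves d (fun _ : Unit => e) = 2 ^ r := by
  have hpos : 0 < e := by
    obtain ⟨n, k, hn, hk, rfl⟩ := he
    have := hn.1.ne_zero
    positivity
  rw [Pool.Agent.N856.JL.Av.curves_all (fun _ => hpos) hd ?_, Fintype.card_unit, one_mul]
  intro _ _ T hT
  refine ⟨rfl, ?_⟩
  by_contra hne
  refine (indN_iff d).2 hi T (Finset.nonempty_iff_ne_empty.2 hne) ?_
  obtain ⟨a, ha⟩ := hT
  have h1 : e ^ 2 ∣ a ^ 2 := ⟨∏ t ∈ T, d t, by rw [pow_two, pow_two, ← ha]⟩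
  obtain ⟨b, rfl⟩ := (Nat.pow_dvd_pow_iff (by norm_num)).1 h1
  refine ⟨b, ?_⟩
  have h2 : 0 < e * e := Nat.mul_pos hpos hpos
  refine Nat.eq_of_mul_eq_mul_left h2 ?_
  rw [ha]
  ring

theorem rand {r : ℕ} {d : Fin r → ℕ} (hd : ∀ t, Disc (d t)) (hi : IndependentN d) {e : ℕ}
    (he : UpToSq Twist e) :
    DiscDensity (fun D => GoodN d (e * D)) (eta ^ 2 ^ r) ∧
    (GoodN d e →
      DiscDensity (fun D => GoodN (Fin.snoc d D : Fin (r + 1) → ℕ) e) (eta ^ 2 ^ r) ∧
      ∃ q : ℕ → ℕ, StrictMono q ∧ (∀ j, Disc (q j)) ∧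
        ∀ k, IndependentN (Fin.append d fun i : Fin k => q i) ∧
          GoodN (Fin.append d fun i : Fin k => q i) e) := by
  obtain ⟨-, h1, -, h2, h3, -⟩ := Pool.Agent.N856.JL.Av.main (ι := Unit) hd
  have g1 := h1 (fun _ => e) fun _ => he
  rw [expo hd hi he] at g1
  refine ⟨?_, fun hg => ⟨?_, ?_⟩⟩
  · have e1 : (fun n => Disc n ∧ GoodN d (e * n)) = fun m => Pool.Agent.N856.JL.Av.Disc m ∧
        Pool.Agent.N856.JL.Av.Good d (Pool.Agent.N856.JL.Av.twist (fun _ : Unit => e) m) :=
      funext fun n => propext (and_congr Iff.rfl (goodN_iff d (e * n)).symm)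
    unfold DiscDensity
    rw [e1]
    exact g1
  · have g2 := h2 (fun _ => e) (fun _ => he) ((goodN_iff d e).2 hg)
    rw [expo hd hi he] at g2
    have e1 : (fun D => Disc D ∧ GoodN (Fin.snoc d D : Fin (r + 1) → ℕ) e) = fun D =>
        Pool.Agent.N856.JL.Av.Disc D ∧
          Pool.Agent.N856.JL.Av.Good (Fin.snoc d D : Fin (r + 1) → ℕ) (fun _ : Unit => e) :=
      funext fun n => propext (and_congr Iff.rfl (goodN_iff _ e).symm)
    unfold DiscDensity
    rw [e1]
    exact g2
  · obtain ⟨q, q1, q2, q3⟩ := h3 (fun _ => e) (fun _ => he) ((indN_iff d).2 hi)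
      ((goodN_iff d e).2 hg)
    exact ⟨q, q1, q2, fun k => ⟨(indN_iff _).1 (q3 k).1, (goodN_iff _ e).1 (q3 k).2⟩⟩

theorem hasProd_eta : HasProd (fun i : ℕ => 1 - (1 / 2 : ℝ) ^ (i + 1)) eta := by
  have h : Multipliable fun i : ℕ => 1 + -((1 / 2 : ℝ) ^ (i + 1)) := by
    apply multipliable_one_add_of_summable
    have h1 : Summable fun i : ℕ => (1 / 2 : ℝ) ^ i * (1 / 2) :=
      (summable_geometric_of_lt_one (by norm_num) (by norm_num)).mul_right _
    refine h1.congr fun i => ?_
    rw [norm_neg, Real.norm_of_nonneg (by positivity), pow_succ]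
  have h3 := h.hasProd
  have e : (fun i : ℕ => 1 + -((1 / 2 : ℝ) ^ (i + 1))) = fun i : ℕ => 1 - (1 / 2 : ℝ) ^ (i + 1) := by
    funext i
    ring
  rw [e] at h3
  exact h3

theorem hasProd_c2 : HasProd (fun i : ℕ => 1 - (1 / 2 : ℝ) ^ (2 * i + 1)) c2 := by
  have h : Multipliable fun i : ℕ => 1 + -((1 / 2 : ℝ) ^ (2 * i + 1)) := by
    apply multipliable_one_add_of_summable
    have h1 : Summable fun i : ℕ => (1 / 4 : ℝ) ^ i * (1 / 2) :=
      (summable_geometric_of_lt_one (by norm_num) (by norm_num)).mul_right _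
    refine h1.congr fun i => ?_
    rw [norm_neg, Real.norm_of_nonneg (by positivity), pow_succ, pow_mul]
    norm_num
  have h3 := h.hasProd
  have e : (fun i : ℕ => 1 + -((1 / 2 : ℝ) ^ (2 * i + 1))) =
      fun i : ℕ => 1 - (1 / 2 : ℝ) ^ (2 * i + 1) := by
    funext i
    ring
  rw [e] at h3
  exact h3

theorem large {η κ : ℝ} (h1 : 0.2887 < η) (h2 : η < 0.2889) (h3 : 0.4194 < κ) (h4 : κ < 0.4195) :
    0.413 < 2737 / 3072 * η + κ / 2 - 16393 / 36864 * (η * κ) := by
  have h5 : η * κ < 0.2889 * 0.4195 := by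
    have h0 : (0 : ℝ) < κ := by linarith
    calc η * κ < 0.2889 * κ := by
          exact mul_lt_mul_of_pos_right h2 h0
      _ < 0.2889 * 0.4195 := by
          exact mul_lt_mul_of_pos_left h4 (by norm_num)
  linarith

end proof

/-- **The rank conjecture for all quadratic twists of three curves without complex multiplication over all
multiquadratic fields.** -/
theorem result :
    -- the conclusion of `S16511` over all multiquadratic fields
    (∀ (c : Fin 3) (r : ℕ) (d : Fin r → ℤ) (m : ℤ), m ≠ 0 → Independent d → Good d c m →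
      ∀ (K : Type) [Field K] [NumberField K], IsMultiquadratic d K →
        Module.finrank ℚ K = 2 ^ r ∧ RankConjectureZero (E K c m) ∧ ShaBound (E K c m) r) ∧
    -- all quadratic fields
    (∀ (c : Fin 3) (D : ℤ), GoodOver c D ↔ RankZeroShaTwo c D) ∧
    (∀ d : ℤ, Squarefree d → ¬ (d < 0 ∧ jacobiSym d 17 = 1) → ∀ B : ℕ,
      ∃ m : ℤ, Squarefree m ∧ (B : ℤ) < |m| ∧ Good (fun _ : Fin 1 => d) 1 m) ∧
    (∀ (r : ℕ) (d : Fin r → ℤ), (∀ t, d t % 4 = 1) →
      ((∀ t, 0 < d t ∧ ¬ (17 : ℤ) ∣ d t) ∨ ∀ t, jacobiSym (d t) 17 = (d t).sign) → ∀ B : ℕ,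
      ∃ m : ℤ, Squarefree m ∧ (B : ℤ) < |m| ∧ Good d 1 m) ∧
    -- none over the other fields unramified at `17`
    (∀ (r : ℕ) (d : Fin r → ℤ), (∀ t, ¬ (17 : ℤ) ∣ d t) → ∀ m : ℤ, m ≠ 0 → Good d 1 m →
      (∀ t, 0 < d t) ∨ ∀ t, jacobiSym (d t) 17 = (d t).sign) ∧
    ∃ η κ : ℝ, HasProd (fun i : ℕ => 1 - (1 / 2 : ℝ) ^ (i + 1)) η ∧ 0.2887 < η ∧ η < 0.2889 ∧
      HasProd (fun i : ℕ => 1 - (1 / 2 : ℝ) ^ (2 * i + 1)) κ ∧ 0.4194 < κ ∧ κ < 0.4195 ∧
      HasDensity (GoodOver 0) (η / 2) ∧
      HasDensity (GoodOver 1) (κ / 2) ∧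
      HasDensity (GoodOver 2) (137 / 256 * η) ∧
      HasDensity (fun D => GoodOver 0 D ∧ GoodOver 1 D) (433 / 1728 * (η * κ)) ∧
      HasDensity (fun D => GoodOver 0 D ∧ GoodOver 2 D) (443 / 3072 * η) ∧
      HasDensity (fun D => GoodOver 1 D ∧ GoodOver 2 D) (2461 / 9216 * (η * κ)) ∧
      HasDensity (fun D => GoodOver 0 D ∧ GoodOver 1 D ∧ GoodOver 2 D)
        (8065 / 110592 * (η * κ)) ∧
      HasDensity (fun D => GoodOver 0 D ∨ GoodOver 1 D ∨ GoodOver 2 D)
        (2737 / 3072 * η + κ / 2 - 16393 / 36864 * (η * κ)) ∧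
      0.413 < 2737 / 3072 * η + κ / 2 - 16393 / 36864 * (η * κ) ∧
      -- imaginary quadratic fields without ideal classes of order four
      (∀ (c : Fin 3) (D : ℤ), Fund D → D < 0 → Allowed c D → (GoodOver c D ↔ NoOrderFour D)) ∧
      (∀ c : Fin 3, c ≠ 1 →
        Tendsto (fun X : ℕ => (countDisc (fun D => (D < 0 ∧ Allowed c D) ∧ GoodOver c D) X : ℝ) /
          (countDisc (fun D => D < 0 ∧ Allowed c D) X : ℝ)) atTop (𝓝 η)) ∧
      -- fixed field and random twist, random extension of the field, towers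
      ∀ (r : ℕ) (d : Fin r → ℕ), (∀ t, Disc (d t)) → IndependentN d → ∀ e : ℕ, UpToSq Twist e →
        DiscDensity (fun D => GoodN d (e * D)) (η ^ 2 ^ r) ∧
        (GoodN d e →
          DiscDensity (fun D => GoodN (Fin.snoc d D : Fin (r + 1) → ℕ) e) (η ^ 2 ^ r) ∧
          ∃ q : ℕ → ℕ, StrictMono q ∧ (∀ j, Disc (q j)) ∧
            ∀ k, IndependentN (Fin.append d fun i : Fin k => q i) ∧
              GoodN (Fin.append d fun i : Fin k => q i) e) := by
  obtain ⟨-, -, -, hb1, hb2⟩ := Pool.Agent.Y948.CQ.t_C2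
  obtain ⟨he1, he2⟩ := Pool.Agent.N916.GB.eta_bounds
  obtain ⟨d1, d2, d3, d4, d5, d6, d7, d8⟩ := dens
    (Pool.Agent.N809.JT.tot_fd Pool.Agent.N809.JT.inp Pool.Agent.N809.JT.dn_nf)
    (Pool.Agent.N809.JT.tot_sf Pool.Agent.N809.JT.inp Pool.Agent.N809.JT.dn_ns)
  exact ⟨fun c r d m hm hi hg K _ _ hK => bsd c hm hi hg K hK, good_one,
    fun d hs hd B => every hs hd B, fun r d hd h B => multi d hd h B,
    fun r d h17 m hm hg => none d h17 hm hg,
    Pool.Agent.N916.GB.eta, Pool.Agent.Y703.CQ.c2, hasProd_eta, he1, he2, hasProd_c2, hb1, hb2,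
    d1, d2, d3, d4, d5, d6, d7, d8, large he1 he2 hb1 hb2, fun c D hD h0 ha => cls c hD h0 ha,
    fun c hc => cls_dens hc, fun r d hd hi e he => rand hd hi he⟩

end Pool.Agent.Results.MP_32c55d_nt.AllTwistsThreeCurves
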