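import Pool.Agent.N683.H2.Res
import Pool.Agent.N683.HR.Iso
import Pool.Agent.N683.HR.Ana
import Pool.Agent.N683.HR.Root
import Pool.Agent.N19.BR.Par

/-!
# The conjecture of Birch and Swinnerton-Dyer on the rank: equivalence with the case of large rank

`K` is a number field, `E` an elliptic curve over `K` with `j(E) ≠ 0, 1728`, `L` a finite Galois
extension of `K`, for example `L = K(E[N])`, `S` a finite set of primes of `K`, for example the primes of
bad reduction, and `R` a natural number.

(1) The rank of `E(K)` is a linear combination, with integral coefficients `e_i`, of the ranks of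
`E(F_i)` for finite extensions `F_i` of `K` over which `E` has rank at least `R`, and `L(E/K, s)` is, up to
a meromorphic function on `ℂ` without zeros and poles on `Re s > 3/2` and at `s = 1`, the product of
the functions `L(E/F_i, s) ^ e_i`.  So the rank conjecture (with the meromorphic continuation) for the
curves `E` over `F_i` implies the rank conjecture for `E` over `K`.

(2) The rank conjecture for all elliptic curves over number fields is equivalent to the rank conjecture
for the curves of rank at least `R` and the curves with `j = 0, 1728`.

(3) If `L(E/K, s)` is continued only to some connected open set that contains `1` and `Re s > 3/2`, then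
fields `F_i` suffice with cyclic Galois groups of `L F_i / F_i`, local degrees divisible by `n`, and at
most two real places.

The proof.  Let `U` be a group of automorphisms of the algebraic closure over `K` such that all finite
images of `U` have a cyclic normal subgroup whose order is prime to `p` and whose index is a power of `p`.
Then `E` has infinite rank over the fixed field `F` of `U`; by compactness the rank is at least `R` over
the fixed fields of all `p`-hyperelementary subgroups of the Galois group of a suitable finite extension,
and Brauer induction gives the relation, with coefficient `1` since all `p` occur.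

For odd `p` see `Pool.Agent.N683.HR`.  For `p = 2`: the three points of `E : y² = f(x)` on a line
`y = t x + n` over `F` are permuted by `U`; if none is fixed the image in the symmetric group is
transitive, and then the field of the square root of the discriminant `D(t, n)` of `f(x) - (t x + n)²` is
unique, since the 2-group `U/C` acts on a cyclic normal group `C` of odd order.  On a rational curve
`n = N(t)/W(t)`, constructed over a field with a fixed abscissa of a 3-torsion point or with a fixed
factorisation `(x² + p x + q)(x² - p x + q')` of the 3-division polynomial, `D` is `α t² + β` up to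
squares, and the values of this form lie in two different classes modulo squares, or `F` is
pythagorean; so on one of two explicit families every line contains a point of `E(F)`.  The parameter of
the line is chosen `𝔭`-adically near a pole of `n`, so that no multiple of the new point is defined over a
given finite extension (formal group).  If `U` fixes `p` only up to sign, the trace of the point from the
quadratic extension `F(p)` is used.  If `F` is pythagorean, `1 + t²` is always a square, and points are
found directly; the theorem of Diller and Dress descends this property from `F(p)` to `F`.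
-/

set_option autoImplicit false

namespace Pool.Agent.Results.MP_32c55d_nt.LargeRankEquivalence

open NumberField IsDedekindDomain
open Pool.Agent.R433.MD (Ext)
open Pool.Agent.N19.BR.Def
open scoped Classical

/-- The rank of the elliptic curve `E` over `K` over the extension `F = Z.F` of `K` is at least `R`. -/
def RankAtLeast {K : Type} [Field K] [NumberField K] (R : ℕ) (E : WeierstrassCurve K) (Z : Ext K) :
    Prop :=
  (R : Cardinal) ≤ Module.rank ℤ (E.map (algebraMap K Z.F)).toAffine.Point

/-- The set `U` is connected and contains `1` and the half plane `Re s > 3/2`. -/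
def Region (U : Set ℂ) : Prop := IsPreconnected U ∧ 1 ∈ U ∧ ∀ s : ℂ, 3 / 2 < s.re → s ∈ U

/-- The rank formula for `E` over `K` follows from the rank formula for `E` over the fields of a list, by
relations with the coefficients `e_i` between the ranks and between the `L`-functions. -/
def Exact (K : Type) [Field K] [NumberField K] (E : WeierstrassCurve K) {k : ℕ} (F : Fin k → Ext K)
    (e : Fin k → ℤ) : Prop :=
  (∀ r : Fin k → ℕ, (∀ i, Module.rank ℤ (E.map (algebraMap K (F i).F)).toAffine.Point = r i) →
    ∃ r₀ : ℕ, Module.rank ℤ E.toAffine.Point = r₀ ∧ (r₀ : ℤ) = ∑ i, e i * r i) ∧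
  (∀ (V : HeightOneSpectrum (𝓞 K) → WeierstrassCurve (𝓞 K)) (_ : MinimalModels E V)
    (W : ∀ i, HeightOneSpectrum (𝓞 (F i).F) → WeierstrassCurve (𝓞 (F i).F))
    (_ : ∀ i, MinimalModels (E.map (algebraMap K (F i).F)) (W i)),
    ∃ ρ : ℂ → ℂ, MeromorphicOn ρ Set.univ ∧ meromorphicOrderAt ρ 1 = 0 ∧
      ∀ s : ℂ, 3 / 2 < s.re → ρ s ≠ 0 ∧
        ∏' v, factor V s v = ρ s * ∏ i, (∏' v, factor (W i) s v) ^ e i) ∧
  ∀ U : Set ℂ, Region U → (∀ i, RankFormula U 1 (E.map (algebraMap K (F i).F))) →
    RankFormula U 1 E

/-- **The two statements of the conjecture of Birch and Swinnerton-Dyer on the rank** for `E` over `K`: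
`L(E/K, s)` continues analytically to a connected open subset `W` of `U` which contains `1` and the half
plane `Re s > 3/2`, and its order of vanishing at `s = 1` is the rank of `E(K)`. -/
def AnalyticRankFormula {K : Type} [Field K] [NumberField K] (U : Set ℂ) (E : WeierstrassCurve K) :
    Prop :=
  ∃ (W : Set ℂ) (Λ : ℂ → ℂ) (r : ℕ), IsOpen W ∧ IsConnected W ∧ W ⊆ U ∧ (1 : ℂ) ∈ W ∧
    (∀ s : ℂ, 3 / 2 < s.re → s ∈ W) ∧ AnalyticOnNhd ℂ Λ W ∧
    (∃ V : HeightOneSpectrum (𝓞 K) → WeierstrassCurve (𝓞 K), MinimalModels E V) ∧
    (∀ V : HeightOneSpectrum (𝓞 K) → WeierstrassCurve (𝓞 K), MinimalModels E V →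
      ∀ s : ℂ, 3 / 2 < s.re → Λ s = ∏' v, factor V s v) ∧
    Module.rank ℤ E.toAffine.Point = r ∧ analyticOrderAt Λ 1 = (r : ℕ∞)

/-- **The rank conjecture and elliptic curves of large rank.**

(1) Let `E` be an elliptic curve over a number field `K` with `j(E) ≠ 0, 1728`, `L/K` a finite Galois
extension, `S` a finite set of primes of `K`, `n ≥ 1` and `R` a natural number.  There are finitely many
finite extensions `F_i` of `K` and integers `e_i` such that
* `E(F_i)` has rank at least `R`;
* for a prime number `p_i` the Galois group of `L F_i / F_i` is `p_i`-hyperelementary, and the part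
  of `n` prime to `p_i` divides the local degrees of `F_i / K` above `S`; `F_i` has at most two real
  places if `p_i ≠ 2`;
* the rank of `E(K)` is the sum of the `e_i` times the ranks of `E(F_i)`;
* `L(E/K, s) = ρ(s) ∏ L(E/F_i, s) ^ e_i` for `Re s > 3/2`, where `ρ` is meromorphic on `ℂ`,
  different from zero for `Re s > 3/2` and of order `0` at `s = 1`;
* for all connected `U` that contain `1` and the half plane `Re s > 3/2`, for example `U = ℂ`: if for all
  `i` the function `L(E/F_i, s)` has a meromorphic continuation to `U` with order at `1` equal to the rank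
  of `E(F_i)`, then the same holds for `E` over `K`.

(2) For every natural number `R` and every such `U`: the rank formula (with the meromorphic continuation
to `U`) holds for all elliptic curves over all number fields if and only if it holds for those of rank at
least `R` and for those with `j = 0` or `j = 1728`.

(3) For `E` and `L, S, n, R` as in (1) there are finitely many finite extensions `F_i` of `K` such that
* `E(F_i)` has rank at least `R`;
* `L F_i / F_i` is cyclic, `n` divides the local degrees of `F_i / K` at all primes above `S`, and `F_i`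
  has at most two real places;
* for all convex open `U` that contain `1` and the half plane: if the rank formula holds for `E` over all
  `F_i` (with the meromorphic continuation to `U`), then `L(E/K, s)` continues analytically to a connected
  open subset of `U` that contains `1` and `Re s > 3/2`, and its order of vanishing at `1` is the rank of
  `E(K)`. -/
theorem result :
    (∀ (K : Type) [Field K] [NumberField K] (E : WeierstrassCurve K) [E.IsElliptic],
      E.j ≠ 0 → E.j ≠ 1728 → ∀ (L : Type) [Field L] [NumberField L] [Algebra K L]
      [IsGalois K L] (S : Set (HeightOneSpectrum (𝓞 K))), S.Finite → ∀ n : ℕ, n ≠ 0 →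
      ∀ R : ℕ, ∃ (k : ℕ) (F : Fin k → Ext K) (e : Fin k → ℤ),
        (∀ i, RankAtLeast R E (F i) ∧ HyperelementaryClass L S n (F i)) ∧ Exact K E F e) ∧
    (∀ (R : ℕ) (U : Set ℂ), Region U →
      ((∀ (K : Type) [Field K] [NumberField K] (E : WeierstrassCurve K) [E.IsElliptic],
        RankFormula U 1 E) ↔
      ∀ (K : Type) [Field K] [NumberField K] (E : WeierstrassCurve K) [E.IsElliptic],
        ((R : Cardinal) ≤ Module.rank ℤ E.toAffine.Point ∨ E.j = 0 ∨ E.j = 1728) →
        RankFormula U 1 E)) ∧
    ∀ (K : Type) [Field K] [NumberField K] (E : WeierstrassCurve K) [E.IsElliptic],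
      E.j ≠ 0 → E.j ≠ 1728 → ∀ (L : Type) [Field L] [NumberField L] [Algebra K L]
      [IsGalois K L] (S : Set (HeightOneSpectrum (𝓞 K))), S.Finite → ∀ n : ℕ, n ≠ 0 →
      ∀ R : ℕ, ∃ (k : ℕ) (F : Fin k → Ext K),
        (∀ i, RankAtLeast R E (F i) ∧ CyclicOver L (F i) ∧ LocalDegreesDivisible S n (F i) ∧
          AtMostTwoRealPlaces (F i)) ∧
        ∀ U : Set ℂ, IsOpen U → Convex ℝ U → 1 ∈ U → (∀ s : ℂ, 3 / 2 < s.re → s ∈ U) →
          (∀ i, RankFormula U 1 (E.map (algebraMap K (F i).F))) → AnalyticRankFormula U E := by
  have main : ∀ (K : Type) [Field K] [NumberField K] (E : WeierstrassCurve K) [E.IsElliptic],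
      E.j ≠ 0 → E.j ≠ 1728 → ∀ (L : Type) [Field L] [NumberField L] [Algebra K L]
      [IsGalois K L] (S : Set (HeightOneSpectrum (𝓞 K))), S.Finite → ∀ n : ℕ, n ≠ 0 →
      ∀ R : ℕ, ∃ (k : ℕ) (F : Fin k → Ext K) (e : Fin k → ℤ),
        (∀ i, RankAtLeast R E (F i) ∧ HyperelementaryClass L S n (F i)) ∧ Exact K E F e := by
    intro K _ _ E hE h0 h1728 L _ _ _ _ S hS n hn R
    obtain ⟨k, F, e, hrel, hF⟩ := Pool.Agent.N683.H2.list_one K E hE h0 h1728 L S hS n hn R
    refine ⟨k, F, e, hF, fun r hr => ?_,
      fun V hV W hW => Pool.Agent.N683.H2.L_of_rel1 hrel hE V hV W hW,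
      fun U hU h => (Pool.Agent.N19.BR.rank_of_rel one_ne_zero hrel hU.1 hU.2.2 hU.2.1 hE h).1⟩
    obtain ⟨r0, h1, h2⟩ := Pool.Agent.N19.BR.rank_of_rel' one_ne_zero hrel E hr
    exact ⟨r0, h1, by rw [h2]; push_cast; ring⟩
  refine ⟨main, fun R U hU => ⟨fun h K _ _ E _ _ => h K E, fun h K _ _ E _ => ?_⟩, ?_⟩
  · by_cases h0 : E.j = 0
    · exact h K E (Or.inr (Or.inl h0))
    by_cases h1 : E.j = 1728
    · exact h K E (Or.inr (Or.inr h1))
    obtain ⟨k, F, e, hF, -, -, h2⟩ := main K E h0 h1 K ∅ Set.finite_empty 1 one_ne_zero R
    exact h2 U hU fun i => h (F i).F _ (Or.inl (hF i).1)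
  · intro K _ _ E _ h0 h1728 L _ _ _ _ S hS n hn R
    obtain ⟨k, F, e, m, hm, hrel, hF⟩ := Pool.Agent.N683.HR.list_rank Pool.Agent.N683.HR.iso K E
      inferInstance h0 h1728 L S hS n hn R
    refine ⟨k, F, hF, fun U hU hc h1 hH hr => ?_⟩
    exact Pool.Agent.N683.HR.analytic_of_power Pool.Agent.N683.HR.root Pool.Agent.N683.HR.ana
      inferInstance hU hc h1 hH hm
      (Pool.Agent.N19.BR.rank_of_rel hm hrel hc.isPreconnected hH h1 inferInstance hr).1

end Pool.Agent.Results.MP_32c55d_nt.LargeRankEquivalence
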