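import Mathlib
import Pool.Agent.N883.FF.End

/-!
# The rank part of the Birch and Swinnerton-Dyer conjecture for a majority of the cubic twists of
`y² + y = x³` over `ℚ(√-3)` by elements prime to `3`

`K` is the field of the third roots of unity.  `D` runs through the cube-free nonunits of `𝓞 K` that
are congruent to a third root of unity modulo `3`: every cubic twist of `E : y² + y = x³` by an element
prime to `3` (except `E` itself and its twists by units) is isomorphic to `E_D : y² + D y = x³` for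
exactly one of these `D`.

* For every such `D` outside of one of the nine classes of `D` modulo cubes of the completion at `√-3`,
  `E_D(K)` is finite and `Ш(E_D / K)[3^∞] = 0` if and only if the graph of the cubic residue symbols,
  with the prime divisors of `D` and the unit `ω` as vertices, is connected in the sense of `ZMod 3`.
* Then `L(E_D / K, s)` is not zero at `1`, and the conclusion of `S16511` holds for `E_D` over `K` and
  for `E` over every cubic extension `F = K(θ)`, `θ³ = D`.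
* The proportion of the `D` with this property among all the `D` tends to
  `8 / 9 * ∏_{i ≥ 0} (1 - 3^{-(2 i + 1)}) = 0.5680...`.

The group `Sha` of the library is the group of the continuous cocycles of the absolute Galois group
of `K` with values in the points over an algebraic closure of `K` that are coboundaries at all the
places, modulo the coboundaries.

Joint work; see the header of `Pool/Agent/N883/FF/End.lean` and of the files that it imports.
-/

set_option autoImplicit false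

namespace Pool.Agent.Results.MP_32c55d_nt.MajorityCubicTwists

open NumberField WeierstrassCurve
open Pool.Agent.TH841.NF.D (Sha)
open scoped Classical

/-- The curve `E_D : y² + D y = x³`. -/
def curve {F : Type} [Field F] (D : F) : WeierstrassCurve F := ⟨0, 0, D, 0, 0⟩

/-- The conclusion of `S16511` for `W` over `F`, with rank `0`: `W` is an elliptic curve, `W(F)` is
finite, and the `L`-series of `W` continues analytically from `Re s > 3 / 2` to a connected open set
that contains `1`, where its order of vanishing is equal to the rank of `W(F)`. -/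
def RankZero {F : Type} [Field F] [NumberField F] (W : WeierstrassCurve F) : Prop :=
  W.IsElliptic ∧ Finite W.toAffine.Point ∧
  ∃ (U : Set ℂ) (L : ℂ → ℂ),
    IsOpen U ∧ IsConnected U ∧ {s : ℂ | (3 / 2 : ℝ) < s.re} ⊆ U ∧ (1 : ℂ) ∈ U ∧
    AnalyticOnNhd ℂ L U ∧ (∀ s : ℂ, (3 / 2 : ℝ) < s.re → L s = W.LSeries s) ∧
    (∀ r : ℕ, r < Module.finrank ℤ W.toAffine.Point → iteratedDeriv r L 1 = 0) ∧
    iteratedDeriv (Module.finrank ℤ W.toAffine.Point) L 1 ≠ 0

variable {K : Type} [Field K] [NumberField K]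

/-- `D` is a cube-free nonunit, congruent to a third root of unity modulo `3`. -/
def InFamily (D : 𝓞 K) : Prop :=
  ¬ IsUnit D ∧ (∀ x : 𝓞 K, x ^ 3 ∣ D → IsUnit x) ∧ ∃ ω : 𝓞 K, ω ^ 3 = 1 ∧ (3 : 𝓞 K) ∣ D - ω

/-- The exceptional class: `D` is `1` modulo `3` and its norm is `1` modulo `9`. -/
def Exceptional (D : 𝓞 K) : Prop := (3 : 𝓞 K) ∣ D - 1 ∧ (9 : ℤ) ∣ Algebra.norm ℤ D - 1

/-- `E_D(K)` is finite and the `3`-primary part of `Ш(E_D / K)` is trivial. -/
def FiniteAndTrivial (D : 𝓞 K) : Prop :=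
  Finite (curve (D : K)).toAffine.Point ∧ ∀ (n : ℕ) (x : Sha (curve (D : K))), 3 ^ n • x = 0 → x = 0

/-- `D = ω ^ i ∏ π k ^ e k` with different primes `π k` that are `1` modulo `3` and exponents
`e k = 1, 2`; the cubic residue symbols of `π k` and of `ω` modulo `π j` are `ω ^ χ j k` and
`ω ^ η j`. -/
def IsFactorization (ω D : 𝓞 K) (n : ℕ) (π : Fin n → 𝓞 K) (e : Fin n → ZMod 3) (i : ZMod 3)
    (χ : Fin n → Fin n → ZMod 3) (η : Fin n → ZMod 3) : Prop :=
  (∀ k, Prime (π k) ∧ (3 : 𝓞 K) ∣ π k - 1 ∧ e k ≠ 0) ∧ D = ω ^ i.val * ∏ k, π k ^ (e k).val ∧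
  (∀ k j, k ≠ j → ¬ π j ∣ π k ∧
    π j ∣ π k ^ (((Algebra.norm ℤ (π j)).natAbs - 1) / 3) - ω ^ (χ j k).val) ∧
  ∀ j, π j ∣ ω ^ (((Algebra.norm ℤ (π j)).natAbs - 1) / 3) - ω ^ (η j).val

/-- The weighted Laplacian over the field with three elements of the graph with the vertices `π k`
(values `v k`) and `ω` (value `t`) has no solutions besides the multiples of `v k = 1`, `t = i`. -/
def IsConnected {n : ℕ} (e : Fin n → ZMod 3) (i : ZMod 3) (χ : Fin n → Fin n → ZMod 3)
    (η : Fin n → ZMod 3) : Prop :=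
  ∀ (v : Fin n → ZMod 3) (t : ZMod 3),
    (∀ j, ∑ k, e k * χ j k * (v k - v j) + η j * (t - i * v j) = 0) →
    ∀ j, t = i * v j ∧ ∀ k, v k = v j

/-- `D` has a factorization, and for each one: `E_D(K)` is finite and `Ш(E_D / K)[3^∞] = 0` if and
only if the graph is connected. -/
def Criterion (D : 𝓞 K) : Prop :=
  (∃ (ω : 𝓞 K) (n : ℕ) (π : Fin n → 𝓞 K) (e : Fin n → ZMod 3) (i : ZMod 3)
    (χ : Fin n → Fin n → ZMod 3) (η : Fin n → ZMod 3),
    ω ^ 2 + ω + 1 = 0 ∧ IsFactorization ω D n π e i χ η) ∧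
  ∀ (ω : 𝓞 K) (n : ℕ) (π : Fin n → 𝓞 K) (e : Fin n → ZMod 3) (i : ZMod 3)
    (χ : Fin n → Fin n → ZMod 3) (η : Fin n → ZMod 3),
    ω ^ 2 + ω + 1 = 0 → IsFactorization ω D n π e i χ η →
      (FiniteAndTrivial D ↔ IsConnected e i χ η)

theorem result (K : Type) [Field K] [NumberField K] [IsCyclotomicExtension {3} ℚ K] :
    (∃ c : ℝ, 0 < c ∧ ∃ X₀ : ℕ, ∀ X : ℕ, X₀ ≤ X →
      c * X ≤ ({D : 𝓞 K | Algebra.norm ℤ D ≤ X ∧ InFamily D}.ncard : ℝ)) ∧
    (∀ D : 𝓞 K, InFamily D → ¬ Exceptional D → Criterion D ∧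
      (∃ (F : Type) (_ : Field F) (_ : NumberField F) (_ : Algebra K F) (θ : F),
        Module.finrank K F = 3 ∧ θ ^ 3 = algebraMap K F D) ∧
      (FiniteAndTrivial D → RankZero (curve (D : K)) ∧
        ∀ (F : Type) [Field F] [NumberField F] [Algebra K F] (θ : F),
          Module.finrank K F = 3 → θ ^ 3 = algebraMap K F D → RankZero (curve (1 : F)))) ∧
    Filter.Tendsto (fun X : ℕ =>
      ({D : 𝓞 K | Algebra.norm ℤ D ≤ X ∧ InFamily D ∧ ¬ Exceptional D ∧
        FiniteAndTrivial D}.ncard : ℝ) /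
        ({D : 𝓞 K | Algebra.norm ℤ D ≤ X ∧ InFamily D}.ncard : ℝ)) Filter.atTop
      (nhds (8 / 9 * ∏' i : ℕ, (1 - (1 / 3 : ℝ) ^ (2 * i + 1)))) ∧
    (0.568 : ℝ) < 8 / 9 * ∏' i : ℕ, (1 - (1 / 3 : ℝ) ^ (2 * i + 1)) := by
  obtain ⟨h1, h2, h3, h4⟩ := Pool.Agent.N883.FF.finalB K
  refine ⟨h1, fun D hD hx => ?_, h3, h4⟩
  obtain ⟨f1, -, f3, -, f5⟩ := h2 D hD hx
  refine ⟨f1, f3, fun ht => ?_⟩
  obtain ⟨g1, g2⟩ := f5 ht
  exact ⟨g1, fun F _ _ _ θ hd hθ => (g2 F θ hd hθ).1⟩

end Pool.Agent.Results.MP_32c55d_nt.MajorityCubicTwists
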